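import Pool.Agent.H97.NF.PB
import Pool.Agent.H95.INS.Targets2

/-!
# Part E7 (stability of the leftmost geodesic): definitions

Local problem of scale `k`: end points `oK k = (-32 * 64 ^ (k-1), 0)`,
`eK k = (32 * 64 ^ (k-1), 0)`; levels `j` with `|j| ≤ 16 * 64 ^ (k-1)`.
-/

open MeasureTheory ProbabilityTheory Filter Topology
open scoped ENNReal

namespace Pool.Agent.H97.ST

open Pool.Agent.H99.NS Pool.Agent.H22.LPP Pool.Agent.H97.NF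
open Pool.Agent.H95.INS (Near)

/-- Lower end point of the local problem of scale `k`. -/
def oK (k : ℕ) : Site := (-(32 * 64 ^ (k - 1)), 0)

/-- Upper end point. -/
def eK (k : ℕ) : Site := (32 * 64 ^ (k - 1), 0)

/-- The levels in the middle half. -/
def Mid (k : ℕ) (j : ℤ) : Prop := |j| ≤ 16 * 64 ^ (k - 1)

/-- The leftmost geodesic of the local problem. -/
noncomputable def Lk (k : ℕ) (ω : Env) (t : ℤ) : ℤ := Lam ω (oK k) (eK k) t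

/-- The window of scale `i` with index `m`. -/
def Win (i : ℕ) (m : ℤ) : Set ℤ := {x | m * 16 ^ i ≤ x ∧ x < (m + 1) * 16 ^ i}

/-- The box of scale `i` around the window `m` at the level `j` with lateral margin `R`. -/
def BoxW (j : ℤ) (i : ℕ) (m R : ℤ) : Set Site :=
  {s | 2 * |s.1 - j| ≤ 64 ^ i ∧ m * 16 ^ i - R ≤ s.2 ∧ s.2 < (m + 1) * 16 ^ i + R}

open Classical in
/-- The profile equal to `r` on `S` and to `0` elsewhere. -/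
noncomputable def rhoS (r : ℝ) (S : Set Site) : Site → ℝ := fun x => if x ∈ S then r else 0

/-- A pair of equal environments. -/
def diag (out : Env) : PEnv := fun x => (out x, out x)

/-- The lateral margin. -/
def Rm (h i : ℕ) : ℤ := 8 * 2 ^ h * 16 ^ i

/-- Regularity of the displacements: `|Λ(t) - Λ(j)| ≤ 2 ^ h * 16 ^ i` for `|t - j| ≤ 64 ^ i / 2`. -/
def Rdis (k : ℕ) (ω : Env) (j : ℤ) (i h : ℕ) : Prop :=
  ∀ t : ℤ, 2 * |t - j| ≤ 64 ^ i → |Lk k ω t - Lk k ω j| ≤ 2 ^ h * 16 ^ i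

/-- Half of the time scale `64 ^ a` (for `1 ≤ a`). -/
def hv (a : ℕ) : ℤ := 32 * 64 ^ (a - 1)

/-- Grid positions of spacing `16 ^ a` (both parities). -/
def Grid (a : ℕ) (v : ℤ) : Prop := (16 ^ a : ℤ) ∣ v ∨ (16 ^ a : ℤ) ∣ v - 1

/-- Lower local regularity at the level `j` and the scale `a`: the passage time from `oK k` to
`(j, Λ(j))` is, up to `2 ^ h * 4 ^ a`, realised through a grid point at the level `j - hv a`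
and a short path near `Λ(j)`. -/
def RLow (k : ℕ) (ω : Env) (j : ℤ) (a h : ℕ) : Prop :=
  ∃ (v : ℤ) (π : ℤ → ℤ), Grid a v ∧ |v - Lk k ω j| ≤ 2 ^ h * 16 ^ a ∧
    Reach (oK k) (j - hv a, v) ∧ Conn (j - hv a, v) (j, Lk k ω j) π ∧
    (∀ t, j - hv a ≤ t → t ≤ j → |π t - Lk k ω j| ≤ 2 ^ h * 16 ^ a) ∧
    T ω (oK k) (j, Lk k ω j) ≤
      T ω (oK k) (j - hv a, v) + wt ω (j - hv a) j π + 2 ^ h * 4 ^ a

/-- Upper local regularity (mirror image). -/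
def RUp (k : ℕ) (ω : Env) (j : ℤ) (a h : ℕ) : Prop :=
  ∃ (v : ℤ) (π : ℤ → ℤ), Grid a v ∧ |v - Lk k ω j| ≤ 2 ^ h * 16 ^ a ∧
    Reach (j + hv a, v) (eK k) ∧ Conn (j, Lk k ω j) (j + hv a, v) π ∧
    (∀ t, j ≤ t → t ≤ j + hv a → |π t - Lk k ω j| ≤ 2 ^ h * 16 ^ a) ∧
    T ω (j, Lk k ω j) (eK k) ≤
      wt ω j (j + hv a) π + T ω (j + hv a, v) (eK k) + 2 ^ h * 4 ^ a

/-- All regularity events used in one step. -/
structure Reg (k : ℕ) (ω : Env) (j : ℤ) (i h : ℕ) : Prop where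
  d : Rdis k ω j i h
  l0 : RLow k ω j (i - 5 * h) h
  u0 : RUp k ω j (i - 5 * h) h
  u1 : RUp k ω (j + 64 ^ (i - 1)) (i - 5 * h) h
  l1 : RLow k ω (j - 64 ^ (i - 1)) (i - 5 * h) h

/-- Near tie, disjoint on `[j, j + 64 ^ a]`. -/
def TieU (k : ℕ) (ω : Env) (j : ℤ) (a : ℕ) (g : ℝ) : Prop :=
  ∃ γ, Near ω (oK k) (eK k) g γ ∧ ∀ t, j ≤ t → t ≤ j + 64 ^ a → γ t ≠ Lk k ω t

/-- Near tie, disjoint on `[j - 64 ^ a, j]`. -/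
def TieD (k : ℕ) (ω : Env) (j : ℤ) (a : ℕ) (g : ℝ) : Prop :=
  ∃ γ, Near ω (oK k) (eK k) g γ ∧ ∀ t, j - 64 ^ a ≤ t → t ≤ j → γ t ≠ Lk k ω t

/-- Near tie, far away at the level `j`. -/
def TieF (k : ℕ) (ω : Env) (j : ℤ) (a : ℕ) (g : ℝ) : Prop :=
  ∃ γ, Near ω (oK k) (eK k) g γ ∧ 16 ^ a ≤ |γ j - Lk k ω j|

/-! ## Inputs -/

/-- Near ties are rare (from Part E6): `c'` bounds the admissible `h`, and `a + 4 h + s₁ ≤ k`. -/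
def I_NT (q : ℝ) : Prop := ∃ C c c' : ℝ, ∃ s₁ k₀ : ℕ, 0 < C ∧ 0 < c ∧ 0 < c' ∧ ∀ k : ℕ, k₀ ≤ k →
  ∀ j : ℤ, Mid k j → ∀ a h : ℕ, k ≤ 30 * a → a + 4 * h + s₁ ≤ k → (h : ℝ) ≤ c' * k →
  PE q {ω | TieU k ω j a (4 ^ a / 4 ^ h)} ≤ ENNReal.ofReal (C * Real.exp (-(c * h))) ∧
  PE q {ω | TieD k ω j a (4 ^ a / 4 ^ h)} ≤ ENNReal.ofReal (C * Real.exp (-(c * h))) ∧
  PE q {ω | TieF k ω j a (4 ^ a / 4 ^ h)} ≤ ENNReal.ofReal (C * Real.exp (-(c * h)))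

/-- Regularity of one environment around its geodesic (from Part D). -/
def I_REG (q : ℝ) : Prop := ∃ C c' : ℝ, ∃ s₁ k₀ : ℕ, 0 < C ∧ 0 < c' ∧ ∀ k : ℕ, k₀ ≤ k →
  ∀ j : ℤ, |j| ≤ 20 * 64 ^ (k - 1) → ∀ a h : ℕ, k ≤ 30 * a → a + 4 * h + s₁ ≤ k →
  (h : ℝ) ≤ c' * k →
  PE q {ω | ¬ Rdis k ω j a h} ≤ ENNReal.ofReal (C * (1 / 4) ^ h) ∧
  (a + 9 * h + s₁ ≤ k → PE q {ω | ¬ RLow k ω j a h} ≤ ENNReal.ofReal (C * (1 / 4) ^ h) ∧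
    PE q {ω | ¬ RUp k ω j a h} ≤ ENNReal.ofReal (C * (1 / 4) ^ h))

/-- The geodesic does not leave the window of half width `2 ^ h 16 ^ k` (from Part D). -/
def I_TOP (q : ℝ) : Prop := ∃ C c' : ℝ, ∃ k₀ : ℕ, 0 < C ∧ 0 < c' ∧ ∀ k : ℕ, k₀ ≤ k →
  ∀ j : ℤ, |j| ≤ 20 * 64 ^ (k - 1) → ∀ h : ℕ, (h : ℝ) ≤ c' * k →
  PE q {ω | 2 ^ h * 16 ^ k < |Lk k ω j|} ≤ ENNReal.ofReal (C * (1 / 4) ^ h)

/-- PALM for pairs (from Part D): the noise `ρ m` of the window `m` is contained in the box of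
scale `i + 1` around it, and the conditional probability of `Bad m` given any environment
outside any set containing this box is at most `β`. -/
def I_PALM (q : ℝ) : Prop := ∃ C c c' : ℝ, ∃ s₁ k₀ : ℕ, 0 < C ∧ 0 < c ∧ 0 < c' ∧
  ∀ k : ℕ, k₀ ≤ k → ∀ j : ℤ, Mid k j → ∀ i h : ℕ, k ≤ 20 * i → i + 4 * h + s₁ ≤ k →
  (h : ℝ) ≤ c' * k →
  ∀ (ρ : ℤ → Site → ℝ) (Bad : ℤ → PEnv → Prop) (β : ℝ), 0 ≤ β → (∀ m x, 0 ≤ ρ m x ∧ ρ m x ≤ 1) →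
  (∀ m, ∀ x, x ∉ BoxW j (i + 1) (m / 16) (Rm h (i + 1)) → ρ m x = 0) →
  (∀ m, MeasurableSet {E | Bad m E}) →
  (∀ m, ∀ S : Set Site, BoxW j (i + 1) (m / 16) (Rm h (i + 1)) ⊆ S → ∀ out : Env,
    PN q (ρ m) {E | Bad m (glue S (diag out) E)} ≤ ENNReal.ofReal β) →
  ∑' m : ℤ, PN q (ρ m) {E | Lk k (eA E) j ∈ Win i m ∧ Bad m E} ≤
    ENNReal.ofReal (C * (256 ^ h * √β + Real.exp (-(c * h))))

/-- DELIVERABLE: stability at every level of the middle half. -/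
def D_ST (q : ℝ) : Prop := ∀ η : ℝ, 0 < η → ∃ κ : ℝ, 0 < κ ∧ κ ≤ 1 ∧ ∃ k₀ : ℕ, 1 ≤ k₀ ∧
  ∀ k : ℕ, k₀ ≤ k → ∀ r : ℝ, 0 ≤ r → r ≤ κ * (1 / 4) ^ k → ∀ j : ℤ, Mid k j →
  (PN q (fun _ => r)).real {E | Lk k (eA E) j ≠ Lk k (eB E) j} ≤ η

end Pool.Agent.H97.ST
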