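import Pool.Agent.H31.ST.Basic

/-! Modules CURVE1 and CURVE of MP_0b97f5_mp.  helper97 -/

open Set Filter Topology

noncomputable section

namespace H31.ST.H97

theorem x_mem {lam : ℝ} {c : ℝ → ℝ × ℝ} {u v : ℝ} (hc : Curve lam c u v) :
    ∀ t ∈ Icc u v, |(c t).2| ≤ 2 := by
  intro t ht
  rw [abs_le]
  constructor
  · rw [← hc.xu]
    exact hc.xmono.monotoneOn (left_mem_Icc.2 hc.huv.le) ht ht.1
  · rw [← hc.xv]
    exact hc.xmono.monotoneOn ht (right_mem_Icc.2 hc.huv.le) ht.2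

theorem x_mem' {lam : ℝ} {c : ℝ → ℝ × ℝ} {u v : ℝ} (hc : Curve lam c u v) :
    ∀ t ∈ Ioo u v, |(c t).2| < 2 := by
  intro t ht
  have htI : t ∈ Icc u v := Ioo_subset_Icc_self ht
  rw [abs_lt]
  constructor
  · rw [← hc.xu]
    exact hc.xmono (left_mem_Icc.2 hc.huv.le) htI ht.1
  · rw [← hc.xv]
    exact hc.xmono htI (right_mem_Icc.2 hc.huv.le) ht.2

theorem curve1 (h1 : T_TRIG) (h2 : T_CONT) (h3 : T_STRIP) : T_CURVE1 := by
  intro lam hlam c u v hc s hs
  obtain ⟨hR, -, -, -, hth, hphi, -, -, -, -, hpeak⟩ := h1 lam hlam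
  obtain ⟨hcPsi, hcX, -, -⟩ := h2 lam hlam
  have hpi := Real.pi_pos
  have hmaps : MapsTo c (Icc u v) {p : ℝ × ℝ | |p.1| ≤ 2 ∧ |p.2| ≤ 2} :=
    fun t ht => ⟨hc.y2 t ht, x_mem hc t ht⟩
  have hΨ : ContinuousOn (fun t => Psi lam s (c t).1 (c t).2) (Icc u v) :=
    (hcPsi s).comp hc.cont hmaps
  have hX : ContinuousOn (fun t => X lam s (c t).1 (c t).2) (Icc u v) :=
    (hcX s).comp hc.cont hmaps
  obtain ⟨hm2, hi1, him⟩ := hs
  have hm2' : (2:ℝ) ≤ s.m := by exact_mod_cast hm2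
  have hi1' : (1:ℝ) ≤ s.i := by exact_mod_cast hi1
  have him' : (s.i:ℝ) + 1 ≤ s.m := by exact_mod_cast him
  have hu : ((s.i:ℝ) + 1) * Real.pi < Psi lam s (c u).1 (c u).2 := by
    unfold Psi
    rw [hc.xu, hth.1, hphi _ _ (by norm_num)]
    nlinarith
  have hv : Psi lam s (c v).1 (c v).2 < s.i * Real.pi := by
    unfold Psi
    rw [hc.xv, hth.2, hphi _ _ (by norm_num)]
    nlinarith
  have hpq : (s.i:ℝ) * Real.pi < ((s.i:ℝ) + 1) * Real.pi := by nlinarith
  have hne : ∀ t ∈ Icc u v, s.i * Real.pi ≤ Psi lam s (c t).1 (c t).2 →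
      Psi lam s (c t).1 (c t).2 ≤ ((s.i:ℝ) + 1) * Real.pi → t ∈ Ioo u v := by
    intro t ht ha hb
    constructor
    · rcases eq_or_lt_of_le ht.1 with h | h
      · subst h; exfalso; linarith
      · exact h
    · rcases eq_or_lt_of_le ht.2 with h | h
      · subst h; exfalso; linarith
      · exact h
  obtain ⟨b, u', v', e, hub, hbu, huv, hve, hev, hset, hstrip, hfu, hfv, hmono, hfb, hfe⟩ :=
    h3 (R lam) (s.i * Real.pi) (((s.i:ℝ) + 1) * Real.pi) u v
      (fun t => Psi lam s (c t).1 (c t).2) (fun t => X lam s (c t).1 (c t).2) hR hpq hc.huv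
      hΨ hX hu hv
      (fun t ht h => (hpeak s ⟨hm2, hi1, him⟩ _ _ (hc.y2 t ht)
        (x_mem' hc t (hne t ht h.ge (h.le.trans hpq.le)))).1 h)
      (fun t ht h => (hpeak s ⟨hm2, hi1, him⟩ _ _ (hc.y2 t ht)
        (x_mem' hc t (hne t ht (hpq.le.trans h.ge) h.le))).2 h)
      (fun t ht ha hb hx => by
        have htI := Ioo_subset_Icc_self ht
        have := hc.loc [s] (VW_cons.2 ⟨⟨hm2, hi1, him⟩, VW_nil⟩) t ht
          ((InR_singleton lam s (c t)).2 ⟨hc.y2 t htI, x_mem' hc t ht, ha, hb, hx⟩)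
        exact this)
  have hsub : Icc u' v' ⊆ Icc u v := Icc_subset_Icc (hub.le.trans hbu.le) (hve.le.trans hev.le)
  have hsub' : Ioo u' v' ⊆ Ioo u v := Ioo_subset_Ioo (hub.le.trans hbu.le) (hve.le.trans hev.le)
  have hset' : {t | t ∈ Icc u v ∧ InR1 lam s (c t)} = Ioo u' v' := by
    rw [← hset]
    ext t
    constructor
    · rintro ⟨ht, h⟩
      exact ⟨ht, h.2.2.1, h.2.2.2.1, h.2.2.2.2⟩
    · rintro ⟨ht, ha, hb, hx⟩
      exact ⟨ht, hc.y2 t ht, x_mem' hc t (hne t ht ha.le hb.le), ha, hb, hx⟩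
  refine ⟨b, u', v', e, hub, hbu, huv, hve, hev, hset', hstrip, hfb, hfe, ?_⟩
  refine ⟨huv, ?_, ?_, hfu, hfv, hmono, ?_⟩
  · exact (continuous_snd.comp_continuousOn (hc.cont.mono hsub)).prodMk (hX.mono hsub)
  · intro t ht
    exact x_mem hc t (hsub ht)
  · intro w hw t ht hin
    have htm : t ∈ {t | t ∈ Icc u v ∧ InR1 lam s (c t)} := by rw [hset']; exact ht
    exact hc.loc (s :: w) (VW_cons.2 ⟨⟨hm2, hi1, him⟩, hw⟩) t (hsub' ht) ⟨htm.2, hin⟩

theorem curve (h : T_CURVE1) : T_CURVE := by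
  intro lam hlam c u v hc w
  induction w generalizing c u v with
  | nil =>
    intro _
    refine ⟨u, v, le_refl _, hc.huv, le_refl _, ?_, hc⟩
    ext t
    constructor
    · rintro ⟨ht, h1, h2⟩
      rw [abs_lt] at h2
      constructor
      · rcases eq_or_lt_of_le ht.1 with h | h
        · subst h; rw [hc.xu] at h2; exact absurd h2.1 (lt_irrefl _)
        · exact h
      · rcases eq_or_lt_of_le ht.2 with h | h
        · subst h; rw [hc.xv] at h2; exact absurd h2.2 (lt_irrefl _)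
        · exact h
    · intro ht
      exact ⟨Ioo_subset_Icc_self ht, hc.y2 t (Ioo_subset_Icc_self ht), x_mem' hc t ht⟩
  | cons s w ih =>
    intro hw
    obtain ⟨hs, hw⟩ := VW_cons.1 hw
    obtain ⟨b, u1, v1, e, hub, hbu, huv, hve, hev, hset, hstrip, hfb, hfe, hc1⟩ :=
      h lam hlam c u v hc s hs
    obtain ⟨u', v', h1, h2, h3, h4, h5⟩ := ih _ _ _ hc1 hw
    refine ⟨u', v', hub.le.trans (hbu.le.trans h1), h2, h3.trans (hve.le.trans hev.le), ?_, h5⟩
    rw [← h4]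
    ext t
    constructor
    · rintro ⟨ht, h6, h7⟩
      have : t ∈ Ioo u1 v1 := by rw [← hset]; exact ⟨ht, h6⟩
      exact ⟨Ioo_subset_Icc_self this, h7⟩
    · rintro ⟨ht, h7⟩
      have hbd := h7.bd
      have hx := hbd.2
      rw [abs_lt] at hx
      have hI : t ∈ Ioo u1 v1 := by
        constructor
        · rcases eq_or_lt_of_le ht.1 with h | h
          · subst h; rw [hc1.xu] at hx; exact absurd hx.1 (lt_irrefl _)
          · exact h
        · rcases eq_or_lt_of_le ht.2 with h | h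
          · subst h; rw [hc1.xv] at hx; exact absurd hx.2 (lt_irrefl _)
          · exact h
      rw [← hset] at hI
      exact ⟨hI.1, hI.2, h7⟩

end H31.ST.H97
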