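import Pool.Agent.H31.ST.Targets

/-! Module STRIP of MP_0b97f5_mp.  helper97 -/

open Set Filter Topology

noncomputable section

namespace H31.ST.H97

theorem exists_last {g : ℝ → ℝ} {s t : ℝ} {C : Set ℝ} (hC : IsClosed C)
    (hg : ContinuousOn g (Icc s t)) (hne : ∃ x ∈ Icc s t, g x ∈ C) :
    ∃ x ∈ Icc s t, g x ∈ C ∧ ∀ y ∈ Ioc x t, g y ∉ C := by
  have hcl : IsClosed (Icc s t ∩ g ⁻¹' C) := hg.preimage_isClosed_of_isClosed isClosed_Icc hC
  have hcomp : IsCompact (Icc s t ∩ g ⁻¹' C) :=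
    isCompact_Icc.of_isClosed_subset hcl inter_subset_left
  obtain ⟨x0, hx0, hx0C⟩ := hne
  obtain ⟨x, hx, hmax⟩ := hcomp.exists_isGreatest ⟨x0, hx0, hx0C⟩
  refine ⟨x, hx.1, hx.2, fun y hy hyC => ?_⟩
  have := hmax (show y ∈ Icc s t ∩ g ⁻¹' C from ⟨⟨hx.1.1.trans hy.1.le, hy.2⟩, hyC⟩)
  exact absurd hy.1 (not_lt.2 this)

theorem exists_first {g : ℝ → ℝ} {s t : ℝ} {C : Set ℝ} (hC : IsClosed C)
    (hg : ContinuousOn g (Icc s t)) (hne : ∃ x ∈ Icc s t, g x ∈ C) :
    ∃ x ∈ Icc s t, g x ∈ C ∧ ∀ y ∈ Ico s x, g y ∉ C := by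
  have hcl : IsClosed (Icc s t ∩ g ⁻¹' C) := hg.preimage_isClosed_of_isClosed isClosed_Icc hC
  have hcomp : IsCompact (Icc s t ∩ g ⁻¹' C) :=
    isCompact_Icc.of_isClosed_subset hcl inter_subset_left
  obtain ⟨x0, hx0, hx0C⟩ := hne
  obtain ⟨x, hx, hmin⟩ := hcomp.exists_isLeast ⟨x0, hx0, hx0C⟩
  refine ⟨x, hx.1, hx.2, fun y hy hyC => ?_⟩
  have := hmin (show y ∈ Icc s t ∩ g ⁻¹' C from ⟨⟨hy.1, hy.2.le.trans hx.1.2⟩, hyC⟩)
  exact absurd hy.2 (not_lt.2 this)

/-- between two points where `g` is on different sides of `c` there is a zero of `g - c` -/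
theorem exists_cross {g : ℝ → ℝ} {s t c : ℝ} (hst : s ≤ t) (hg : ContinuousOn g (Icc s t))
    (h : (g s ≤ c ∧ c ≤ g t) ∨ (g t ≤ c ∧ c ≤ g s)) : ∃ x ∈ Icc s t, g x = c := by
  rcases h with h | h
  · obtain ⟨x, hx, hxc⟩ := intermediate_value_Icc hst hg ⟨h.1, h.2⟩
    exact ⟨x, hx, hxc⟩
  · obtain ⟨x, hx, hxc⟩ := intermediate_value_Icc' hst hg ⟨h.1, h.2⟩
    exact ⟨x, hx, hxc⟩

theorem strictMonoOn_Ioo {f : ℝ → ℝ} {a b : ℝ} (hf : ContinuousOn f (Icc a b))
    (hl : ∀ t ∈ Ioo a b, LocInc f t) : StrictMonoOn f (Ioo a b) := by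
  intro x hx y hy hxy
  have hsub : Icc x y ⊆ Icc a b := Icc_subset_Icc hx.1.le hy.2.le
  obtain ⟨z, hz, hmax⟩ := isCompact_Icc.exists_isMaxOn (nonempty_Icc.2 hxy.le) (hf.mono hsub)
  have key : ∀ z ∈ Icc x y, (∀ w ∈ Icc x y, f w ≤ f z) → z = y := by
    intro z hz hmax
    by_contra hne
    have hzy : z < y := lt_of_le_of_ne hz.2 hne
    have h1 := (hl z ⟨hx.1.trans_le hz.1, hzy.trans hy.2⟩).2
    have h2 : ∀ᶠ s in 𝓝[>] z, s < y :=
      (eventually_lt_nhds hzy).filter_mono nhdsWithin_le_nhds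
    have h3 : ∀ᶠ s in 𝓝[>] z, z < s := eventually_mem_nhdsWithin
    obtain ⟨s, hs1, hs2, hs3⟩ := (h1.and (h2.and h3)).exists
    exact absurd (hmax s ⟨hz.1.trans hs3.le, hs2.le⟩) (not_le.2 hs1)
  have hzy := key z hz hmax
  subst hzy
  have h4 : f x ≤ f z := hmax (left_mem_Icc.2 hxy.le)
  rcases lt_or_eq_of_le h4 with h5 | h5
  · exact h5
  · exfalso
    have := key x (left_mem_Icc.2 hxy.le) (fun w hw => by
      have h6 : f w ≤ f z := hmax hw
      have h7 : f x = f z := h5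
      rw [h7]; exact h6)
    exact hxy.ne this

theorem strictMonoOn_Icc {f : ℝ → ℝ} {a b : ℝ} (hf : ContinuousOn f (Icc a b))
    (hl : ∀ t ∈ Ioo a b, LocInc f t) : StrictMonoOn f (Icc a b) := by
  have hI := strictMonoOn_Ioo hf hl
  -- left end point
  have hleft : ∀ y ∈ Ioo a b, f a < f y := by
    intro y hy
    set m := (a + y) / 2 with hm
    have hm1 : a < m := by rw [hm]; linarith [hy.1]
    have hm2 : m < y := by rw [hm]; linarith [hy.1]
    have hmI : m ∈ Ioo a b := ⟨hm1, hm2.trans hy.2⟩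
    have h1 : f a ≤ f m := by
      have hab : a ∈ Icc a b := left_mem_Icc.2 (hy.1.trans hy.2).le
      have hc : Tendsto f (𝓝[Ioo a b] a) (𝓝 (f a)) :=
        (hf a hab).mono_left (nhdsWithin_mono _ Ioo_subset_Icc_self)
      have : (𝓝[Ioo a b] a).NeBot := by
        rw [nhdsWithin_Ioo_eq_nhdsGT (hy.1.trans hy.2)]; infer_instance
      refine le_of_tendsto hc ?_
      have h2 : ∀ᶠ s in 𝓝[Ioo a b] a, s < m :=
        (eventually_lt_nhds hm1).filter_mono nhdsWithin_le_nhds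
      have h3 : ∀ᶠ s in 𝓝[Ioo a b] a, s ∈ Ioo a b := eventually_mem_nhdsWithin
      filter_upwards [h2, h3] with s hs1 hs2
      exact (hI hs2 hmI hs1).le
    exact h1.trans_lt (hI hmI hy hm2)
  have hright : ∀ x ∈ Ioo a b, f x < f b := by
    intro x hx
    set m := (x + b) / 2 with hm
    have hm1 : x < m := by rw [hm]; linarith [hx.2]
    have hm2 : m < b := by rw [hm]; linarith [hx.2]
    have hmI : m ∈ Ioo a b := ⟨hx.1.trans hm1, hm2⟩
    have h1 : f m ≤ f b := by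
      have hab : b ∈ Icc a b := right_mem_Icc.2 (hx.1.trans hx.2).le
      have hc : Tendsto f (𝓝[Ioo a b] b) (𝓝 (f b)) :=
        (hf b hab).mono_left (nhdsWithin_mono _ Ioo_subset_Icc_self)
      have : (𝓝[Ioo a b] b).NeBot := by
        rw [nhdsWithin_Ioo_eq_nhdsLT (hx.1.trans hx.2)]; infer_instance
      refine ge_of_tendsto hc ?_
      have h2 : ∀ᶠ s in 𝓝[Ioo a b] b, m < s :=
        (eventually_gt_nhds hm2).filter_mono nhdsWithin_le_nhds
      have h3 : ∀ᶠ s in 𝓝[Ioo a b] b, s ∈ Ioo a b := eventually_mem_nhdsWithin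
      filter_upwards [h2, h3] with s hs1 hs2
      exact (hI hmI hs2 hs1).le
    exact (hI hx hmI hm1).trans_le h1
  intro x hx y hy hxy
  rcases eq_or_lt_of_le hx.1 with h1 | h1
  · subst h1
    rcases eq_or_lt_of_le hy.2 with h2 | h2
    · subst h2
      set m := (a + y) / 2 with hm
      have hm1 : a < m := by rw [hm]; linarith
      have hm2 : m < y := by rw [hm]; linarith
      exact (hleft m ⟨hm1, hm2⟩).trans (hright m ⟨hm1, hm2⟩)
    · exact hleft y ⟨hxy, h2⟩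
  · rcases eq_or_lt_of_le hy.2 with h2 | h2
    · subst h2
      exact hright x ⟨h1, hxy⟩
    · exact hI ⟨h1, hxy.trans h2⟩ ⟨h1.trans hxy, h2⟩ hxy

/-- NO RETURN, upwards -/
theorem no_return_up {f : ℝ → ℝ} {t0 t1 : ℝ} (hf : ContinuousOn f (Icc t0 t1))
    (hl : ∀ t ∈ Ioo t0 t1, |f t| < 2 → LocInc f t) (h0 : 2 ≤ f t0) :
    ∀ t ∈ Icc t0 t1, 2 ≤ f t := by
  intro t ht
  by_contra hlt
  push Not at hlt
  have hsub : Icc t0 t ⊆ Icc t0 t1 := Icc_subset_Icc_right ht.2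
  obtain ⟨z, hz, hz2, hzn⟩ := exists_last (C := Ici 2) isClosed_Ici (hf.mono hsub)
    ⟨t0, left_mem_Icc.2 ht.1, h0⟩
  have hzt : z < t := by
    rcases eq_or_lt_of_le hz.2 with h | h
    · subst h; exact absurd hz2 (not_le.2 hlt)
    · exact h
  have hc := hf z (hsub hz)
  -- near `z`, `f > -2`
  have h1 : ∀ᶠ s in 𝓝[Icc t0 t1] z, -2 < f s :=
    hc.eventually (eventually_gt_nhds (by have : (2:ℝ) ≤ f z := hz2; linarith))
  rw [eventually_nhdsWithin_iff, Metric.eventually_nhds_iff] at h1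
  obtain ⟨d, hd, h1⟩ := h1
  set w := min (z + d / 2) ((z + t) / 2) with hw
  have hw1 : z < w := lt_min (by linarith) (by linarith)
  have hw2 : w ≤ z + d / 2 := min_le_left _ _
  have hw3 : w < t := (min_le_right _ _).trans_lt (by linarith)
  have hw4 : ∀ s ∈ Ioo z w, |f s| < 2 := by
    intro s hs
    rw [abs_lt]
    constructor
    · refine h1 ?_ ?_
      · rw [Real.dist_eq, abs_lt]; constructor <;> linarith [hs.1, hs.2]
      · exact ⟨hz.1.trans hs.1.le, (hs.2.trans hw3).le.trans ht.2⟩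
    · have := hzn s ⟨hs.1, (hs.2.trans hw3).le⟩
      simpa using this
  have hm := strictMonoOn_Icc (f := f) (a := z) (b := w)
    (hf.mono (Icc_subset_Icc hz.1 (hw3.le.trans ht.2)))
    (fun s hs => hl s ⟨hz.1.trans_lt hs.1, (hs.2.trans hw3).trans_le ht.2⟩ (hw4 s hs))
  have h2 := hm (left_mem_Icc.2 hw1.le) (right_mem_Icc.2 hw1.le) hw1
  have h3 := hzn w ⟨hw1, hw3.le⟩
  have hz2' : (2:ℝ) ≤ f z := hz2
  simp only [mem_Ici, not_le] at h3
  linarith

/-- NO RETURN, downwards -/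
theorem no_return_down {f : ℝ → ℝ} {t0 t1 : ℝ} (hf : ContinuousOn f (Icc t0 t1))
    (hl : ∀ t ∈ Ioo t0 t1, |f t| < 2 → LocInc f t) (h0 : f t1 ≤ -2) :
    ∀ t ∈ Icc t0 t1, f t ≤ -2 := by
  intro t ht
  by_contra hlt
  push Not at hlt
  have hsub : Icc t t1 ⊆ Icc t0 t1 := Icc_subset_Icc_left ht.1
  obtain ⟨z, hz, hz2, hzn⟩ := exists_first (C := Iic (-2)) isClosed_Iic (hf.mono hsub)
    ⟨t1, right_mem_Icc.2 ht.2, h0⟩
  have hzt : t < z := by
    rcases eq_or_lt_of_le hz.1 with h | h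
    · subst h; exact absurd hz2 (not_le.2 hlt)
    · exact h
  have hc := hf z (hsub hz)
  have h1 : ∀ᶠ s in 𝓝[Icc t0 t1] z, f s < 2 :=
    hc.eventually (eventually_lt_nhds (by have : f z ≤ -2 := hz2; linarith))
  rw [eventually_nhdsWithin_iff, Metric.eventually_nhds_iff] at h1
  obtain ⟨d, hd, h1⟩ := h1
  set w := max (z - d / 2) ((z + t) / 2) with hw
  have hw1 : w < z := max_lt (by linarith) (by linarith)
  have hw2 : z - d / 2 ≤ w := le_max_left _ _
  have hw3 : t < w := lt_of_lt_of_le (by linarith) (le_max_right _ _)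
  have hw4 : ∀ s ∈ Ioo w z, |f s| < 2 := by
    intro s hs
    rw [abs_lt]
    constructor
    · have := hzn s ⟨(hw3.trans hs.1).le, hs.2⟩
      simpa using this
    · refine h1 ?_ ?_
      · rw [Real.dist_eq, abs_lt]; constructor <;> linarith [hs.1, hs.2]
      · exact ⟨ht.1.trans (hw3.trans hs.1).le, hs.2.le.trans hz.2⟩
  have hm := strictMonoOn_Icc (f := f) (a := w) (b := z)
    (hf.mono (Icc_subset_Icc (ht.1.trans hw3.le) hz.2))
    (fun s hs => hl s ⟨(ht.1.trans_lt hw3).trans hs.1, hs.2.trans_le hz.2⟩ (hw4 s hs))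
  have h2 := hm (left_mem_Icc.2 hw1.le) (right_mem_Icc.2 hw1.le) hw1
  have h3 := hzn w ⟨hw3.le, hw1⟩
  have hz2' : f z ≤ -2 := hz2
  simp only [mem_Iic, not_le] at h3
  linarith

/-- a continuous function which avoids `c` on `(x, t]` stays on the side of its value at `t` -/
theorem side_after_lt {g : ℝ → ℝ} {x t c : ℝ} (hg : ContinuousOn g (Icc x t))
    (hn : ∀ y ∈ Ioc x t, g y ≠ c) (ht : g t < c) : ∀ y ∈ Ioc x t, g y < c := by
  intro y hy
  by_contra hlt
  push Not at hlt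
  obtain ⟨z, hz, hzc⟩ := exists_cross (c := c) hy.2 (hg.mono (Icc_subset_Icc_left hy.1.le))
    (Or.inr ⟨ht.le, hlt⟩)
  exact hn z ⟨hy.1.trans_le hz.1, hz.2⟩ hzc

theorem side_after_gt {g : ℝ → ℝ} {x t c : ℝ} (hg : ContinuousOn g (Icc x t))
    (hn : ∀ y ∈ Ioc x t, g y ≠ c) (ht : c < g t) : ∀ y ∈ Ioc x t, c < g y := by
  intro y hy
  by_contra hlt
  push Not at hlt
  obtain ⟨z, hz, hzc⟩ := exists_cross (c := c) hy.2 (hg.mono (Icc_subset_Icc_left hy.1.le))
    (Or.inl ⟨hlt, ht.le⟩)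
  exact hn z ⟨hy.1.trans_le hz.1, hz.2⟩ hzc

theorem side_before_lt {g : ℝ → ℝ} {x t c : ℝ} (hg : ContinuousOn g (Icc x t))
    (hn : ∀ y ∈ Ico x t, g y ≠ c) (hx : g x < c) : ∀ y ∈ Ico x t, g y < c := by
  intro y hy
  by_contra hlt
  push Not at hlt
  obtain ⟨z, hz, hzc⟩ := exists_cross (c := c) hy.1 (hg.mono (Icc_subset_Icc_right hy.2.le))
    (Or.inl ⟨hx.le, hlt⟩)
  exact hn z ⟨hz.1, hz.2.trans_lt hy.2⟩ hzc

theorem side_before_gt {g : ℝ → ℝ} {x t c : ℝ} (hg : ContinuousOn g (Icc x t))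
    (hn : ∀ y ∈ Ico x t, g y ≠ c) (hx : c < g x) : ∀ y ∈ Ico x t, c < g y := by
  intro y hy
  by_contra hlt
  push Not at hlt
  obtain ⟨z, hz, hzc⟩ := exists_cross (c := c) hy.1 (hg.mono (Icc_subset_Icc_right hy.2.le))
    (Or.inr ⟨hlt, hx.le⟩)
  exact hn z ⟨hz.1, hz.2.trans_lt hy.2⟩ hzc

theorem strip : T_STRIP := by
  intro r p q u v Ψ f hr hpq huv hΨ hf hu hv hp hq hinc
  -- `b0`, the last time with `Ψ = q`
  obtain ⟨b0, hb0, hb0q, hb0n⟩ := exists_last (C := {q}) isClosed_singleton hΨ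
    (by
      obtain ⟨x, hx, hxq⟩ := exists_cross (c := q) huv.le hΨ (Or.inr ⟨(hv.trans hpq).le, hu.le⟩)
      exact ⟨x, hx, hxq⟩)
  simp only [mem_singleton_iff] at hb0q hb0n
  have hub0 : u < b0 := by
    rcases eq_or_lt_of_le hb0.1 with h | h
    · subst h; exact absurd hb0q hu.ne'
    · exact h
  have hb0v : b0 < v := by
    rcases eq_or_lt_of_le hb0.2 with h | h
    · subst h; exfalso; linarith
    · exact h
  have hafter : ∀ y ∈ Ioc b0 v, Ψ y < q :=
    side_after_lt (hΨ.mono (Icc_subset_Icc_left hb0.1)) hb0n (hv.trans hpq)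
  -- `c0`, the first time after `b0` with `Ψ = p`
  have hΨb : ContinuousOn Ψ (Icc b0 v) := hΨ.mono (Icc_subset_Icc_left hb0.1)
  obtain ⟨c0, hc0, hc0p, hc0n⟩ := exists_first (C := {p}) isClosed_singleton hΨb
    (by
      obtain ⟨x, hx, hxq⟩ := exists_cross (c := p) hb0.2 hΨb
        (Or.inr ⟨hv.le, by rw [hb0q]; exact hpq.le⟩)
      exact ⟨x, hx, hxq⟩)
  simp only [mem_singleton_iff] at hc0p hc0n
  have hb0c0 : b0 < c0 := by
    rcases eq_or_lt_of_le hc0.1 with h | h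
    · subst h; exfalso; linarith
    · exact h
  have hc0v : c0 < v := by
    rcases eq_or_lt_of_le hc0.2 with h | h
    · subst h; exfalso; linarith
    · exact h
  have hbefore : ∀ y ∈ Ico b0 c0, p < Ψ y :=
    side_before_gt (hΨb.mono (Icc_subset_Icc_right hc0.2)) hc0n (by rw [hb0q]; exact hpq)
  have hstrip : ∀ y ∈ Ioo b0 c0, p < Ψ y ∧ Ψ y < q := fun y hy =>
    ⟨hbefore y ⟨hy.1.le, hy.2⟩, hafter y ⟨hy.1, (hy.2.trans hc0v).le⟩⟩
  have hfb0 : f b0 ≤ -r := hq b0 hb0 hb0q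
  have hfc0 : r ≤ f c0 := hp c0 ⟨hub0.le.trans hb0c0.le, hc0v.le⟩ hc0p
  have hsub : Icc b0 c0 ⊆ Icc u v := Icc_subset_Icc hub0.le hc0v.le
  have hfbc : ContinuousOn f (Icc b0 c0) := hf.mono hsub
  have hincI : ∀ t ∈ Ioo b0 c0, |f t| < 2 → LocInc f t := fun t ht h =>
    hinc t ⟨hub0.trans ht.1, ht.2.trans hc0v⟩ (hstrip t ht).1 (hstrip t ht).2 h
  -- `u'`, the last time in `[b0, c0]` with `f ≤ -2`
  obtain ⟨u', hu', hu'2, hu'n⟩ := exists_last (C := Iic (-2)) isClosed_Iic hfbc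
    ⟨b0, left_mem_Icc.2 hb0c0.le, by simp only [mem_Iic]; linarith⟩
  simp only [mem_Iic, not_le] at hu'2 hu'n
  have hu'c0 : u' < c0 := by
    rcases eq_or_lt_of_le hu'.2 with h | h
    · subst h; exfalso; linarith
    · exact h
  have hfu' : f u' = -2 := by
    refine le_antisymm hu'2 ?_
    have hc : Tendsto f (𝓝[Ioo u' c0] u') (𝓝 (f u')) :=
      (hfbc u' hu').mono_left (nhdsWithin_mono _ (Ioo_subset_Icc_self.trans
        (Icc_subset_Icc_left hu'.1)))
    have : (𝓝[Ioo u' c0] u').NeBot := by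
      rw [nhdsWithin_Ioo_eq_nhdsGT hu'c0]; infer_instance
    refine ge_of_tendsto hc ?_
    filter_upwards [eventually_mem_nhdsWithin] with s hs
    exact (hu'n s ⟨hs.1, hs.2.le⟩).le
  have hb0u' : b0 < u' := by
    rcases eq_or_lt_of_le hu'.1 with h | h
    · subst h; exfalso; linarith
    · exact h
  -- `v'`, the first time in `[u', c0]` with `2 ≤ f`
  have hfuc : ContinuousOn f (Icc u' c0) := hfbc.mono (Icc_subset_Icc_left hu'.1)
  obtain ⟨v', hv', hv'2, hv'n⟩ := exists_first (C := Ici 2) isClosed_Ici hfuc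
    ⟨c0, right_mem_Icc.2 hu'c0.le, by simp only [mem_Ici]; linarith⟩
  simp only [mem_Ici, not_le] at hv'2 hv'n
  have hu'v' : u' < v' := by
    rcases eq_or_lt_of_le hv'.1 with h | h
    · subst h; exfalso; linarith
    · exact h
  have hfv' : f v' = 2 := by
    refine le_antisymm ?_ hv'2
    have hc : Tendsto f (𝓝[Ioo u' v'] v') (𝓝 (f v')) :=
      (hfuc v' hv').mono_left (nhdsWithin_mono _ (Ioo_subset_Icc_self.trans
        (Icc_subset_Icc_right hv'.2)))
    have : (𝓝[Ioo u' v'] v').NeBot := by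
      rw [nhdsWithin_Ioo_eq_nhdsLT hu'v']; infer_instance
    refine le_of_tendsto hc ?_
    filter_upwards [eventually_mem_nhdsWithin] with s hs
    exact (hv'n s ⟨hs.1.le, hs.2⟩).le
  have hv'c0 : v' < c0 := by
    rcases eq_or_lt_of_le hv'.2 with h | h
    · subst h; exfalso; linarith
    · exact h
  have hmid : ∀ t ∈ Ioo u' v', |f t| < 2 := fun t ht =>
    abs_lt.2 ⟨hu'n t ⟨ht.1, (ht.2.trans hv'c0).le⟩, hv'n t ⟨ht.1.le, ht.2⟩⟩
  have hlow : ∀ t ∈ Icc b0 u', f t ≤ -2 :=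
    no_return_down (hfbc.mono (Icc_subset_Icc_right hu'.2))
      (fun t ht h => hincI t ⟨ht.1, ht.2.trans hu'c0⟩ h) hu'2
  have hhigh : ∀ t ∈ Icc v' c0, 2 ≤ f t :=
    no_return_up (hfuc.mono (Icc_subset_Icc_left hv'.1))
      (fun t ht h => hincI t ⟨(hb0u'.trans hu'v').trans ht.1, ht.2⟩ h) hv'2
  refine ⟨b0, u', v', c0, hub0, hb0u', hu'v', hv'c0, hc0v, ?_, ?_, hfu', hfv', ?_, hfb0, hfc0⟩
  · -- the set
    ext t
    simp only [mem_setOf_eq]
    constructor
    · rintro ⟨ht, h1, h2, h3⟩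
      rw [abs_lt] at h3
      -- `t` is in `(b0, c0)`
      have htb : b0 < t := by
        by_contra hle
        push Not at hle
        have htb0 : t < b0 := by
          rcases eq_or_lt_of_le hle with h | h
          · subst h; exfalso; linarith
          · exact h
        have hΨt : ContinuousOn Ψ (Icc t b0) := hΨ.mono (Icc_subset_Icc ht.1 hb0.2)
        obtain ⟨t1, ht1, ht1C, ht1n⟩ := exists_first (C := {p, q}) (by
            exact (Set.finite_singleton q).insert p |>.isClosed) hΨt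
          ⟨b0, right_mem_Icc.2 htb0.le, by simp [hb0q]⟩
        simp only [mem_insert_iff, mem_singleton_iff, not_or] at ht1C ht1n
        have hsp : ∀ y ∈ Ico t t1, p < Ψ y :=
          side_before_gt (hΨt.mono (Icc_subset_Icc_right ht1.2)) (fun y hy => (ht1n y hy).1) h1
        have hsq : ∀ y ∈ Ico t t1, Ψ y < q :=
          side_before_lt (hΨt.mono (Icc_subset_Icc_right ht1.2)) (fun y hy => (ht1n y hy).2) h2
        rcases ht1C with h | h
        · -- `Ψ t1 = p`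
          have ht1b : t1 ≤ b0 := ht1.2
          have hΨ1 : ContinuousOn Ψ (Icc t1 b0) := hΨt.mono (Icc_subset_Icc_left ht1.1)
          obtain ⟨t3, ht3, ht3q, ht3n⟩ := exists_first (C := {q}) isClosed_singleton hΨ1
            ⟨b0, right_mem_Icc.2 ht1b, hb0q⟩
          simp only [mem_singleton_iff] at ht3q ht3n
          have hΨ2 : ContinuousOn Ψ (Icc t1 t3) := hΨ1.mono (Icc_subset_Icc_right ht3.2)
          obtain ⟨t2, ht2, ht2p, ht2n⟩ := exists_last (C := {p}) isClosed_singleton hΨ2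
            ⟨t1, left_mem_Icc.2 ht3.1, h⟩
          simp only [mem_singleton_iff] at ht2p ht2n
          have hA : ∀ y ∈ Ico t1 t3, Ψ y < q :=
            side_before_lt hΨ2 ht3n (by rw [h]; exact hpq)
          have hB : ∀ y ∈ Ioc t2 t3, p < Ψ y :=
            side_after_gt (hΨ2.mono (Icc_subset_Icc_left ht2.1)) ht2n (by rw [ht3q]; exact hpq)
          have ht2u : u ≤ t2 := ht.1.trans (ht1.1.trans ht2.1)
          have ht3v : t3 ≤ v := ht3.2.trans hb0.2
          have hf2 : 2 ≤ f t2 := by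
            have := hp t2 ⟨ht2u, ht2.2.trans ht3v⟩ ht2p
            linarith
          have hf3 : f t3 ≤ -r := hq t3 ⟨ht2u.trans ht2.2, ht3v⟩ ht3q
          have := no_return_up (f := f) (t0 := t2) (t1 := t3)
            (hf.mono (Icc_subset_Icc ht2u ht3v))
            (fun s hs hs2 => hinc s ⟨ht2u.trans_lt hs.1, hs.2.trans_le ht3v⟩
              (hB s ⟨hs.1, hs.2.le⟩) (hA s ⟨ht2.1.trans hs.1.le, hs.2⟩) hs2) hf2 t3
            (right_mem_Icc.2 ht2.2)
          linarith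
        · -- `Ψ t1 = q`
          have hf1 : f t1 ≤ -2 := by
            have := hq t1 ⟨ht.1.trans ht1.1, ht1.2.trans hb0.2⟩ h
            linarith
          have := no_return_down (f := f) (t0 := t) (t1 := t1)
            (hf.mono (Icc_subset_Icc ht.1 (ht1.2.trans hb0.2)))
            (fun s hs hs2 => hinc s ⟨ht.1.trans_lt hs.1, hs.2.trans_le (ht1.2.trans hb0.2)⟩
              (hsp s ⟨hs.1.le, hs.2⟩) (hsq s ⟨hs.1.le, hs.2⟩) hs2) hf1 t
            (left_mem_Icc.2 ht1.1)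
          linarith
      have htc : t < c0 := by
        by_contra hle
        push Not at hle
        have hct : c0 < t := by
          rcases eq_or_lt_of_le hle with h | h
          · subst h; exfalso; linarith
          · exact h
        have hΨt : ContinuousOn Ψ (Icc c0 t) :=
          hΨ.mono (Icc_subset_Icc (hub0.le.trans hb0c0.le) ht.2)
        obtain ⟨t0, ht0, ht0p, ht0n⟩ := exists_last (C := {p}) isClosed_singleton hΨt
          ⟨c0, left_mem_Icc.2 hct.le, hc0p⟩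
        simp only [mem_singleton_iff] at ht0p ht0n
        have hA : ∀ y ∈ Ioc t0 t, p < Ψ y :=
          side_after_gt (hΨt.mono (Icc_subset_Icc_left ht0.1)) ht0n h1
        have ht0u : u ≤ t0 := (hub0.le.trans hb0c0.le).trans ht0.1
        have hf0 : 2 ≤ f t0 := by
          have := hp t0 ⟨ht0u, ht0.2.trans ht.2⟩ ht0p
          linarith
        have := no_return_up (f := f) (t0 := t0) (t1 := t)
          (hf.mono (Icc_subset_Icc ht0u ht.2))
          (fun s hs hs2 => hinc s ⟨ht0u.trans_lt hs.1, hs.2.trans_le ht.2⟩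
            (hA s ⟨hs.1, hs.2.le⟩)
            (hafter s ⟨(hb0c0.trans_le ht0.1).trans hs.1, (hs.2.le.trans ht.2)⟩) hs2) hf0 t
          (right_mem_Icc.2 ht0.2)
        linarith
      constructor
      · by_contra hle
        push Not at hle
        have := hlow t ⟨htb.le, hle⟩
        linarith
      · by_contra hle
        push Not at hle
        have := hhigh t ⟨hle, htc.le⟩
        linarith
    · intro ht
      have h1 : t ∈ Ioo b0 c0 := ⟨hb0u'.trans ht.1, ht.2.trans hv'c0⟩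
      exact ⟨hsub ⟨h1.1.le, h1.2.le⟩, (hstrip t h1).1, (hstrip t h1).2, hmid t ht⟩
  · intro t ht
    exact hstrip t ⟨hb0u'.trans_le ht.1, ht.2.trans_lt hv'c0⟩
  · exact strictMonoOn_Icc (hfuc.mono (Icc_subset_Icc_right hv'.2))
      (fun t ht => hincI t ⟨hb0u'.trans ht.1, ht.2.trans hv'c0⟩ (hmid t ht))

end H31.ST.H97
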