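import Pool.Agent.H97.ST.Defs
import Pool.Agent.H97.NF.PB2

/-!
# Part E7: targets
-/

open MeasureTheory ProbabilityTheory Filter Topology
open scoped ENNReal

namespace Pool.Agent.H97.ST

open Pool.Agent.H99.NS Pool.Agent.H22.LPP Pool.Agent.H97.NF
open Pool.Agent.H95.INS (Near I_ST)

/-! ## Elementary -/

/-- Windows and boxes. -/
def T_WIN : Prop :=
  (∀ (i : ℕ) (x m : ℤ), x ∈ Win i m ↔ m = x / 16 ^ i) ∧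
  (∀ (i : ℕ) (x : ℤ), x / 16 ^ i / 16 = x / 16 ^ (i + 1)) ∧
  (∀ (j : ℤ) (i : ℕ) (m R R' : ℤ), R ≤ R' → BoxW j i m R ⊆ BoxW j i m R') ∧
  (∀ (j : ℤ) (i : ℕ) (m R R' : ℤ), R ≤ R' → BoxW j i m R ⊆ BoxW j (i + 1) (m / 16) R') ∧
  (∀ (j : ℤ) (i : ℕ) (m R : ℤ), 0 ≤ R → ∃ S : Finset Site, (S : Set Site) = BoxW j i m R ∧
    (S.card : ℝ) ≤ (64 ^ i + 1) * (16 ^ i + 2 * R))

/-- Measurability of events of pairs depending on finitely many sites. -/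
def T_FIMP : Prop := ∀ {β : Type} [MeasurableSpace β] [Countable β] [MeasurableSingletonClass β]
  (A : Set Site) (Ev : (Site → β) → Prop), A.Finite →
  (∀ E E' : Site → β, (∀ x ∈ A, E x = E' x) → (Ev E ↔ Ev E')) → MeasurableSet {E | Ev E}

/-! ## Telescoping -/

/-- Law of the pair obtained by using the second environment on a set `U` and on a larger
set `V`: noise only on the difference. -/
def T_LAW : Prop := ∀ (q r : ℝ) (U V : Set Site), 0 ≤ r → r ≤ 1 → U ⊆ V →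
  MeasurePreserving (fun (E : PEnv) (x : Site) =>
      (glue U (eA E) (eB E) x, glue V (eA E) (eB E) x))
    (PN q (fun _ => r)) (PN q (rhoS r (V \ U)))

/-- Telescoping over nested boxes around the value of a functional. -/
def T_TEL : Prop := ∀ (q r : ℝ), 0 ≤ r → r ≤ 1 → ∀ (L : Env → ℤ), Measurable L →
  ∀ (j : ℤ) (i₀ i₁ : ℕ) (R : ℕ → ℤ), i₀ ≤ i₁ → (∀ i, R i ≤ R (i + 1)) →
  PN q (fun _ => r) {E | L (eA E) ≠ L (eB E)} ≤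
    (∑' m : ℤ, PN q (fun _ => r)
      {E | L (eA E) ∈ Win i₀ m ∧ ∃ y ∈ BoxW j i₀ m (R i₀), (E y).1 ≠ (E y).2}) +
    (∑ i ∈ Finset.Ico i₀ i₁, ∑' m : ℤ,
      PN q (rhoS r (BoxW j (i + 1) (m / 16) (R (i + 1)) \ BoxW j i m (R i)))
        {E | L (eA E) ∈ Win i m ∧ L (eB E) ≠ L (eA E)}) +
    ∑' m : ℤ, PN q (rhoS r (BoxW j i₁ m (R i₁))ᶜ)
      {E | L (eA E) ∈ Win i₁ m ∧ L (eB E) ≠ L (eA E)}

/-- First step. -/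
def T_FST : Prop := ∀ (q r : ℝ), 0 ≤ r → r ≤ 1 → ∀ (L : Env → ℤ), Measurable L →
  ∀ (j : ℤ) (i : ℕ) (R : ℤ), 0 ≤ R →
  ∑' m : ℤ, PN q (fun _ => r)
      {E | L (eA E) ∈ Win i m ∧ ∃ y ∈ BoxW j i m R, (E y).1 ≠ (E y).2} ≤
    ENNReal.ofReal (r * ((64 ^ i + 1) * (16 ^ i + 2 * R)))

/-- Where the profile vanishes the two environments agree almost surely. -/
def T_AEQ : Prop := ∀ (q : ℝ) (ρ : Site → ℝ),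
  ∀ᵐ E ∂(PN q ρ), ∀ x, ρ x = 0 → (E x).1 = (E x).2

/-! ## The deterministic step -/

/-- Tolerance of the step `i`. -/
noncomputable def gi (i h : ℕ) : ℝ := 4 ^ (i - 1) / 4 ^ h

/-- Far paths of the window `m`. -/
def FarP (j : ℤ) (i h : ℕ) (m : ℤ) (γ : ℤ → ℤ) : Prop :=
  γ j < m * 16 ^ i - 3 * 2 ^ h * 16 ^ i ∨ (m + 1) * 16 ^ i + 3 * 2 ^ h * 16 ^ i ≤ γ j

/-- Passage time over the far paths. -/
noncomputable def Tfar (k : ℕ) (ω : Env) (j : ℤ) (i h : ℕ) (m : ℤ) : ℝ :=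
  sSup {x | ∃ γ, Conn (oK k) (eK k) γ ∧ FarP j i h m γ ∧ x = wt ω (oK k).1 (eK k).1 γ}

/-- Closeness of the passage times of two environments. -/
structure Close (k : ℕ) (A B : Env) (j : ℤ) (i h : ℕ) (m : ℤ) : Prop where
  t : |T A (oK k) (eK k) - T B (oK k) (eK k)| ≤ gi i h / 4
  f : |Tfar k A j i h m - Tfar k B j i h m| ≤ gi i h / 4
  lo : ∀ s : ℤ, (s = j - hv (i - 5 * h) ∨ s = j - 64 ^ (i - 1) - hv (i - 5 * h)) →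
    ∀ v : ℤ, Grid (i - 5 * h) v → |v - m * 16 ^ i| ≤ Rm h i →
    |T A (oK k) (s, v) - T B (oK k) (s, v)| ≤ gi i h / 8
  up : ∀ s : ℤ, (s = j + hv (i - 5 * h) ∨ s = j + 64 ^ (i - 1) + hv (i - 5 * h)) →
    ∀ v : ℤ, Grid (i - 5 * h) v → |v - m * 16 ^ i| ≤ Rm h i →
    |T A (s, v) (eK k) - T B (s, v) (eK k)| ≤ gi i h / 8

/-- Coalescence: two leftmost geodesics which stay in a region where the environments agree and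
which meet below and above a level agree at this level. -/
def T_COAL : Prop := ∀ (A B : Env) (o e : Site) (t₁ t₂ j : ℤ), Reach o e → o.1 ≤ t₁ → t₁ ≤ j →
  j ≤ t₂ → t₂ ≤ e.1 → Lam A o e t₁ = Lam B o e t₁ → Lam A o e t₂ = Lam B o e t₂ →
  (∀ t, t₁ < t → t ≤ t₂ → A (t, Lam A o e t) = B (t, Lam A o e t)) →
  (∀ t, t₁ < t → t ≤ t₂ → A (t, Lam B o e t) = B (t, Lam B o e t)) →
  Lam A o e j = Lam B o e j

/-- Far case. -/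
def T_DFAR : Prop := ∀ (k i h : ℕ) (A B : Env) (j m : ℤ), 1 ≤ k → Mid k j →
  Lk k A j ∈ Win i m → 4 * 2 ^ h * 16 ^ i < |Lk k B j - Lk k A j| → Close k A B j i h m →
  TieF k A j i (gi i h)

/-- Near case, geodesics disjoint above `j`. -/
def T_DUP : Prop := ∀ (k i h : ℕ) (A B : Env) (j m : ℤ), 1 ≤ h → 5 * h + 1 ≤ i → i + 1 ≤ k →
  Mid k j → Lk k A j ∈ Win i m → |Lk k B j - Lk k A j| ≤ 4 * 2 ^ h * 16 ^ i →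
  (∀ s ∈ BoxW j i m (Rm h i), A s = B s) → Close k A B j i h m → Reg k B j i h →
  (∀ t, j ≤ t → t ≤ j + 64 ^ (i - 1) → Lk k A t ≠ Lk k B t) → TieU k A j (i - 1) (gi i h)

/-- Near case, geodesics disjoint below `j`. -/
def T_DDN : Prop := ∀ (k i h : ℕ) (A B : Env) (j m : ℤ), 1 ≤ h → 5 * h + 1 ≤ i → i + 1 ≤ k →
  Mid k j → Lk k A j ∈ Win i m → |Lk k B j - Lk k A j| ≤ 4 * 2 ^ h * 16 ^ i →
  (∀ s ∈ BoxW j i m (Rm h i), A s = B s) → Close k A B j i h m → Reg k B j i h →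
  (∀ t, j - 64 ^ (i - 1) ≤ t → t ≤ j → Lk k A t ≠ Lk k B t) → TieD k A j (i - 1) (gi i h)

/-- The deterministic step. -/
def T_DET7 : Prop := ∀ (k i h : ℕ) (A B : Env) (j m : ℤ), 1 ≤ h → 5 * h + 1 ≤ i → i + 1 ≤ k →
  Mid k j → Lk k A j ∈ Win i m → Lk k B j ≠ Lk k A j →
  (∀ s ∈ BoxW j i m (Rm h i), A s = B s) → Close k A B j i h m → Rdis k A j i h →
  (|Lk k B j - Lk k A j| ≤ 4 * 2 ^ h * 16 ^ i → Reg k B j i h) →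
  TieU k A j (i - 1) (gi i h) ∨ TieD k A j (i - 1) (gi i h) ∨ TieF k A j i (gi i h)

/-! ## Closeness is likely -/

/-- Passage times with frozen outside are maxima over families (levels used at most once). -/
def T_FAM : Prop := ∀ (S : Set Site) (out : Env) (u v : Site) (P : (ℤ → ℤ) → Prop),
  (∃ γ, Conn u v γ ∧ P γ) →
  (∀ γ γ' : ℤ → ℤ, (∀ t, u.1 ≤ t → t ≤ v.1 → γ t = γ' t) → (P γ ↔ P γ')) →
  ∃ (F : Finset (Finset Site × ℝ)) (hF : F.Nonempty),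
    (∀ ω : Env, sSup {x | ∃ γ, Conn u v γ ∧ P γ ∧ x = wt (glue S out ω) u.1 v.1 γ} =
      supF F hF ω) ∧
    (∀ a ∈ F, (a.1 : Set Site) ⊆ S ∧ ∀ x ∈ a.1, u.1 < x.1 ∧ x.1 ≤ v.1) ∧
    (∀ a ∈ F, ∀ x ∈ a.1, ∀ y ∈ a.1, x.1 = y.1 → x = y)

/-- Chebyshev bound for one passage time with frozen outside: the noise has intensity at most
`r` and lives (as far as the levels of the paths are concerned) on the levels `(t₁, t₂]`. -/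
def T_CHB : Prop := ∀ q : ℝ, 0 < q → q < 1 → ∃ C : ℝ, 0 < C ∧
  ∀ (S : Set Site) (out : Env) (u v : Site) (P : (ℤ → ℤ) → Prop),
  (∀ γ γ' : ℤ → ℤ, (∀ t, u.1 ≤ t → t ≤ v.1 → γ t = γ' t) → (P γ ↔ P γ')) →
  ∀ (ρ : Site → ℝ) (r : ℝ) (t₁ t₂ : ℤ), (∀ x, 0 ≤ ρ x ∧ ρ x ≤ r ∧ ρ x ≤ 1) → t₁ ≤ t₂ →
  (∀ x, ρ x ≠ 0 → u.1 < x.1 → x.1 ≤ v.1 → t₁ < x.1 ∧ x.1 ≤ t₂) → ∀ g : ℝ, 0 < g →
  PN q ρ {E | g < |sSup {x | ∃ γ, Conn u v γ ∧ P γ ∧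
        x = wt (eA (glue S (diag out) E)) u.1 v.1 γ} -
      sSup {x | ∃ γ, Conn u v γ ∧ P γ ∧ x = wt (eB (glue S (diag out) E)) u.1 v.1 γ}|} ≤
    ENNReal.ofReal (C * (r * ((t₂ - t₁ : ℤ) : ℝ)) / g ^ 2)

/-- Closeness given the outside. -/
def T_CLO : Prop := ∀ q : ℝ, 0 < q → q < 1 → ∃ C : ℝ, 0 < C ∧
  ∀ (k i h : ℕ) (j m : ℤ), 1 ≤ h → 5 * h + 1 ≤ i → i + 1 ≤ k → Mid k j →
  ∀ (S : Set Site) (out : Env) (ρ : Site → ℝ) (r : ℝ) (t₁ t₂ : ℤ),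
  (∀ x, 0 ≤ ρ x ∧ ρ x ≤ r ∧ ρ x ≤ 1) → t₁ ≤ t₂ →
  (∀ x, ρ x ≠ 0 → (oK k).1 < x.1 → x.1 ≤ (eK k).1 → t₁ < x.1 ∧ x.1 ≤ t₂) →
  PN q ρ {E | ¬ Close k (eA (glue S (diag out) E)) (eB (glue S (diag out) E)) j i h m} ≤
    ENNReal.ofReal (C * (r * ((t₂ - t₁ : ℤ) : ℝ)) * 16 ^ (8 * h) / 16 ^ i)

/-! ## One step -/

/-- Transfer: events of the second environment near its own geodesic. -/
def T_TRF : Prop := ∀ (q : ℝ) (L : Env → ℤ) (Z : Env → Prop) (i h : ℕ) (ρ : ℤ → Site → ℝ),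
  Measurable L →
  ∑' m : ℤ, PN q (ρ m) {E | L (eA E) ∈ Win i m ∧ |L (eB E) - L (eA E)| ≤ 4 * 2 ^ h * 16 ^ i ∧
      Z (eB E)} ≤ ENNReal.ofReal (16 * 2 ^ h) * PE q {ω | Z ω} ∧
  ∑' m : ℤ, PN q (ρ m) {E | L (eA E) ∈ Win i m ∧ Z (eA E)} ≤ PE q {ω | Z ω}

/-- Bound of one step of the telescoping, `h` such that the noise `r` satisfies
`r 64 ^ i ≤ 16 ^ (i - 40 h)`. -/
def T_STP : Prop := ∀ q : ℝ, 0 < q → q < 1 → I_NT q → I_REG q → I_PALM q →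
  ∃ C c c' : ℝ, ∃ s₁ k₀ : ℕ, 0 < C ∧ 0 < c ∧ 0 < c' ∧
  ∀ k : ℕ, k₀ ≤ k → ∀ j : ℤ, Mid k j → ∀ i h h' : ℕ, k ≤ 20 * i → i + 4 * h + s₁ ≤ k → 1 ≤ h →
    h' ≤ h → (h : ℝ) ≤ c' * k → ∀ r : ℝ, 0 ≤ r → r * 64 ^ i * 16 ^ (40 * h) ≤ 16 ^ i →
  ∑' m : ℤ, PN q (rhoS r (BoxW j (i + 1) (m / 16) (Rm h' (i + 1)) \ BoxW j i m (Rm h i)))
      {E | Lk k (eA E) j ∈ Win i m ∧ Lk k (eB E) j ≠ Lk k (eA E) j} ≤
    ENNReal.ofReal (C * Real.exp (-(c * h)))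

/-- Bound of the last step: the last scale is `k - s` with `s = s₂ + 4 h`. -/
def T_LST : Prop := ∀ q : ℝ, 0 < q → q < 1 → I_NT q → I_REG q → I_TOP q →
  ∃ c : ℝ, ∃ s₁ : ℕ, 0 < c ∧ ∀ s₂ : ℕ, s₁ ≤ s₂ → ∃ C : ℝ, 0 < C ∧ ∀ h s : ℕ, 1 ≤ h →
  s = s₂ + 4 * h → ∃ k₀ : ℕ, ∀ k : ℕ, k₀ ≤ k → ∀ j : ℤ, Mid k j → ∀ r : ℝ, 0 ≤ r →
    r * 64 ^ k * 16 ^ (40 * h) ≤ 16 ^ k →
  ∑' m : ℤ, PN q (rhoS r (BoxW j (k - s) m (Rm h (k - s)))ᶜ)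
      {E | Lk k (eA E) j ∈ Win (k - s) m ∧ Lk k (eB E) j ≠ Lk k (eA E) j} ≤
    ENNReal.ofReal (C * Real.exp (-(c * h)))

/-! ## Conclusion -/

/-- The strength at the scale `i` (last scale `k - s`). -/
noncomputable def hh (c' : ℝ) (n₀ s k i : ℕ) : ℕ := min (n₀ + (k - s - i) / 80) ⌊c' * k⌋₊

/-- Sum over the scales. -/
def T_SUM : Prop := ∀ c c' C : ℝ, ∀ s₂ : ℕ, 0 < c → 0 < c' → c' ≤ 1 → 0 < C → ∀ η : ℝ, 0 < η →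
  ∃ n₀ : ℕ, 1 ≤ n₀ ∧ ∃ k₀ : ℕ, ∀ k : ℕ, k₀ ≤ k →
    n₀ ≤ ⌊c' * k⌋₊ ∧ k / 20 + 1 + (s₂ + 4 * n₀) ≤ k ∧
    (1 / 16 : ℝ) ^ (40 * n₀) * (1 / 4) ^ k * ((64 ^ (k / 20 + 1) + 1) *
      (16 ^ (k / 20 + 1) + 2 * (8 * 2 ^ k * 16 ^ (k / 20 + 1)))) ≤ η ∧
    ∑ i ∈ Finset.range (k + 1), C * Real.exp (-(c * (hh c' n₀ (s₂ + 4 * n₀) k i : ℝ))) ≤ η

/-- Properties of the strengths. -/
def T_HH : Prop := ∀ (c' : ℝ) (n₀ s k : ℕ), 0 < c' → c' ≤ 1 → 1 ≤ n₀ → 1 ≤ ⌊c' * k⌋₊ →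
  (∀ i, 1 ≤ hh c' n₀ s k i ∧ (hh c' n₀ s k i : ℝ) ≤ c' * k ∧ hh c' n₀ s k i ≤ k ∧
    hh c' n₀ s k (i + 1) ≤ hh c' n₀ s k i ∧ Rm (hh c' n₀ s k i) i ≤ Rm (hh c' n₀ s k (i + 1)) (i + 1)) ∧
  hh c' n₀ s k (k - s) ≤ n₀ ∧
  (∀ r : ℝ, 0 ≤ r → r ≤ (1 / 16) ^ (40 * n₀) * (1 / 4) ^ k → ∀ i, i ≤ k →
    r * 64 ^ i * 16 ^ (40 * hh c' n₀ s k i) ≤ 16 ^ i) ∧
  (∀ r : ℝ, 0 ≤ r → r ≤ (1 / 16) ^ (40 * n₀) * (1 / 4) ^ k →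
    r * 64 ^ k * 16 ^ (40 * hh c' n₀ s k (k - s)) ≤ 16 ^ k)

/-- Stability of the geodesic. -/
def T_STAB : Prop := ∀ q : ℝ, 0 < q → q < 1 → I_NT q → I_REG q → I_PALM q → I_TOP q → D_ST q

/-- In the form of Part C. -/
def T_IST : Prop := ∀ q : ℝ, 0 < q → q < 1 → D_ST q → I_ST q

end Pool.Agent.H97.ST
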